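import Mathlib

set_option autoImplicit false

namespace Pool.Agent.H.MP_54d8ad_lc

open Filter Topology Finset

def Bl (h : ℕ → ℝ) (L : ℕ) : Set ℕ :=
  {i | ∀ i', i' / L = i / L → h i < h i' ∨ (h i = h i' ∧ i ≤ i')}

lemma Bl_nest (h : ℕ → ℝ) {j k : ℕ} (hjk : j ≤ k) : Bl h (2 ^ k) ⊆ Bl h (2 ^ j) := by
  intro i hi i' e
  apply hi
  obtain ⟨t, rfl⟩ := Nat.exists_eq_add_of_le hjk
  rw [pow_add, ← Nat.div_div_eq_div_mul, ← Nat.div_div_eq_div_mul, e]

lemma Bl_uniq {h : ℕ → ℝ} {L i i' : ℕ} (hi : i ∈ Bl h L) (hi' : i' ∈ Bl h L)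
    (e : i' / L = i / L) : i = i' := by
  rcases hi i' e with a | a <;> rcases hi' i e.symm with b | b
  · linarith
  · linarith [b.1]
  · linarith [a.1]
  · exact le_antisymm a.2 b.2

lemma Bl_ex (h : ℕ → ℝ) {L : ℕ} (hL : 0 < L) (b : ℕ) : ∃ i ∈ Bl h L, i / L = b := by
  classical
  have mem : ∀ i, i ∈ Ico (b * L) ((b + 1) * L) ↔ i / L = b := by
    intro i
    rw [mem_Ico, Nat.div_eq_iff hL]
    constructor <;> rintro ⟨a, c⟩ <;> constructor <;> first | omega | (rw [add_mul] at *; omega)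
  obtain ⟨i, hi, hmin⟩ := exists_min_image (Ico (b * L) ((b + 1) * L))
    (fun i => toLex (h i, i)) ⟨b * L, (mem _).2 (Nat.mul_div_cancel _ hL)⟩
  refine ⟨i, fun i' e => ?_, (mem i).1 hi⟩
  have := hmin i' ((mem i').2 (e.trans ((mem i).1 hi)))
  simpa [Prod.Lex.toLex_le_toLex] using this

lemma Bl_card (h : ℕ → ℝ) {L : ℕ} (hL : 0 < L) (n : ℕ) :
    n / L ≤ (Bl h L ∩ Set.Iio n).ncard := by
  choose β h1 h2 using Bl_ex h hL
  have hinj : Function.Injective β := fun a b e => by rw [← h2 a, ← h2 b, e]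
  have : β '' Set.Iio (n / L) ⊆ Bl h L ∩ Set.Iio n := by
    rintro _ ⟨b, hb, rfl⟩
    refine ⟨h1 b, ?_⟩
    exact Nat.lt_of_div_lt_div (c := L) (by rw [h2]; exact hb)
  have h3 := Set.ncard_le_ncard this ((Set.finite_Iio n).inter_of_right _)
  rwa [Set.ncard_image_of_injective _ hinj, Set.ncard_Iio_nat] at h3

lemma Bl_one {h : ℕ → ℝ} {L : ℕ} (s : Finset ℕ) (b : ℕ) (hs : ∀ i ∈ s, i / L = b) (c : ℝ)
    (hc : 0 ≤ c) (hb : ∀ i ∈ s, i ∈ Bl h L → h i ≤ c) : ∑ i ∈ s, (Bl h L).indicator h i ≤ c := by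
  by_cases e : ∃ i ∈ s, i ∈ Bl h L
  · obtain ⟨i, hi, hB⟩ := e
    rw [sum_eq_single_of_mem i hi, Set.indicator_of_mem hB]
    · exact hb i hi hB
    · intro j hj hne
      exact Set.indicator_of_notMem
        (fun hj' => hne (Bl_uniq hj' hB ((hs i hi).trans (hs j hj).symm))) _
  · push Not at e
    rw [sum_eq_zero fun i hi => Set.indicator_of_notMem (e i hi) _]
    exact hc

lemma Bl_sum {h : ℕ → ℝ} (h0 : ∀ i, 0 ≤ h i) {L : ℕ} (hL : 0 < L) (q : ℕ) :
    ∑ i ∈ range (q * L), (Bl h L).indicator h i ≤ (∑ i ∈ range (q * L), h i) / L := by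
  induction q with
  | zero => simp
  | succ q ih =>
    have hle : q * L ≤ (q + 1) * L := Nat.mul_le_mul_right _ (by omega)
    have hL' : (0 : ℝ) < L := by exact_mod_cast hL
    have mem : ∀ i ∈ Ico (q * L) ((q + 1) * L), i / L = q := by
      intro i hi
      rw [mem_Ico, add_mul] at hi
      rw [Nat.div_eq_iff hL]
      omega
    rw [← sum_range_add_sum_Ico _ hle, ← sum_range_add_sum_Ico _ hle, add_div]
    refine add_le_add ih (Bl_one _ q mem _ (div_nonneg (sum_nonneg fun i _ => h0 i) hL'.le) ?_)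
    intro i hi hB
    rw [le_div_iff₀ hL']
    have := card_nsmul_le_sum (Ico (q * L) ((q + 1) * L)) h (h i) (fun i' hi' => by
      rcases hB i' ((mem i' hi').trans (mem i hi).symm) with a | a
      · exact a.le
      · exact a.1.le)
    rw [Nat.card_Ico, add_mul, one_mul, Nat.add_sub_cancel_left, nsmul_eq_mul] at this
    rw [add_mul, one_mul]
    linarith

lemma thin (h : ℕ → ℝ) (h0 : ∀ i, 0 ≤ h i)
    (hinf : Tendsto (fun n => ∑ i ∈ range n, h i) atTop atTop)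
    (hsm : Tendsto (fun n => h n / ∑ i ∈ range (n + 1), h i) atTop (𝓝 0)) (N : ℕ → ℕ) :
    ∃ A : Set ℕ, Tendsto (fun n : ℕ => (∑ i ∈ range n, A.indicator h i) / ∑ i ∈ range n, h i)
      atTop (𝓝 0) ∧ ∀ j, N j / 2 ^ j ≤ (A ∩ Set.Iio (N j)).ncard := by
  refine ⟨{i | ∃ j, i ∈ Bl h (2 ^ j) ∧ i < N j}, ?_, fun j => ?_⟩
  swap
  · refine (Bl_card h (by positivity) (N j)).trans
      (Set.ncard_le_ncard ?_ ((Set.finite_Iio _).inter_of_right _))
    rintro i ⟨a, b⟩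
    exact ⟨⟨j, a, b⟩, b⟩
  have Hm : Monotone fun n => ∑ i ∈ range n, h i := fun a b hab =>
    sum_le_sum_of_subset_of_nonneg (range_mono hab) fun i _ _ => h0 i
  rw [NormedAddGroup.tendsto_nhds_zero]
  intro ε hε
  obtain ⟨j, hj⟩ := exists_pow_lt_of_lt_one (show 0 < ε / 3 by positivity)
    (show (1 / 2 : ℝ) < 1 by norm_num)
  set M := (range j).sup N with hM
  obtain ⟨n1, hn1⟩ := eventually_atTop.1
    ((hsm.eventually (gt_mem_nhds (show 0 < ε / 3 by positivity))).and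
      ((hinf.comp (tendsto_add_atTop_nat 1)).eventually_gt_atTop 0))
  filter_upwards [eventually_ge_atTop (n1 + 2 ^ j), hinf.eventually_gt_atTop 0,
    hinf.eventually_ge_atTop ((∑ i ∈ range M, h i) * 3 / ε)] with m a1 a2 a3
  have hL : 0 < 2 ^ j := by positivity
  have b1 : ∑ i ∈ range m, {i | ∃ j, i ∈ Bl h (2 ^ j) ∧ i < N j}.indicator h i ≤
      ∑ i ∈ range m, ((if i ∈ range M then h i else 0) + (Bl h (2 ^ j)).indicator h i) := by
    refine sum_le_sum fun i _ => Set.indicator_apply_le' ?_ ?_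
    · rintro ⟨k, hk, hi⟩
      by_cases c : k < j
      · rw [if_pos (mem_range.2 (hi.trans_le (le_sup (f := N) (mem_range.2 c))))]
        exact le_add_of_nonneg_right (Set.indicator_nonneg (fun i _ => h0 i) _)
      · rw [Set.indicator_of_mem (Bl_nest h (not_lt.1 c) hk)]
        split_ifs
        · linarith [h0 i]
        · simp
    · intro _
      exact add_nonneg (by split_ifs; exacts [h0 i, le_rfl])
        (Set.indicator_nonneg (fun i _ => h0 i) _)
  have b2 : ∑ i ∈ range m, (if i ∈ range M then h i else 0) ≤ ∑ i ∈ range M, h i := by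
    rw [sum_ite_mem]
    exact sum_le_sum_of_subset_of_nonneg inter_subset_right fun i _ _ => h0 i
  have hq : m / 2 ^ j * 2 ^ j ≤ m := Nat.div_mul_le_self _ _
  have hq2 : m < m / 2 ^ j * 2 ^ j + 2 ^ j := Nat.lt_div_mul_add hL
  have b3 := Bl_sum h0 hL (m / 2 ^ j)
  have b4 := Bl_one (h := h) (L := 2 ^ j) (Ico (m / 2 ^ j * 2 ^ j) m) (m / 2 ^ j) (by
    intro i hi
    rw [mem_Ico] at hi
    rw [Nat.div_eq_iff hL]
    omega) (ε / 3 * ∑ i ∈ range m, h i) (by positivity) (by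
    intro i hi _
    rw [mem_Ico] at hi
    obtain ⟨c1, c2⟩ := hn1 i (by omega)
    replace c1 := (div_lt_iff₀ c2).1 c1
    exact c1.le.trans (mul_le_mul_of_nonneg_left (Hm hi.2) (by positivity)))
  have b5 : (∑ i ∈ range (m / 2 ^ j * 2 ^ j), h i) / ((2 ^ j : ℕ) : ℝ) <
      ε / 3 * ∑ i ∈ range m, h i := by
    calc _ ≤ (∑ i ∈ range m, h i) / ((2 ^ j : ℕ) : ℝ) :=
          div_le_div_of_nonneg_right (Hm hq) (by positivity)
      _ = (1 / 2) ^ j * ∑ i ∈ range m, h i := by push_cast; rw [one_div, inv_pow]; ring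
      _ < _ := mul_lt_mul_of_pos_right hj a2
  rw [sum_add_distrib, ← sum_range_add_sum_Ico ((Bl h (2 ^ j)).indicator h) hq] at b1
  rw [div_le_iff₀ hε] at a3
  rw [Real.norm_eq_abs, abs_of_nonneg (div_nonneg (sum_nonneg fun i _ =>
    Set.indicator_nonneg (fun i _ => h0 i) _) a2.le), div_lt_iff₀ a2]
  linarith

lemma sub_mul (F : ℕ → ℝ) (h0 : F 0 = 0) (hs : ∀ x y, F (x + y) ≤ F x + F y) (k a : ℕ) :
    F (k * a) ≤ k * F a := by
  induction k with
  | zero => simp [h0]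
  | succ k ih => rw [add_mul, one_mul]; push_cast; linarith [hs (k * a) a]

lemma ratio (F : ℕ → ℝ) (h0 : F 0 = 0) (hs : ∀ x y, F (x + y) ≤ F x + F y) (hm : Monotone F)
    {a n : ℕ} (han : a ≤ n) : a * F n ≤ 2 * n * F a := by
  rcases Nat.eq_zero_or_pos a with rfl | ha
  · simp [h0]
  have h1 : n ≤ (n / a + 1) * a := by rw [add_mul, one_mul]; exact (Nat.lt_div_mul_add ha).le
  have h2 := (hm h1).trans (sub_mul F h0 hs _ _)
  have h3 : a * (n / a + 1) ≤ 2 * n := by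
    have := Nat.mul_div_le n a
    rw [mul_add]; omega
  have h4 : (a : ℝ) * ((n / a + 1 : ℕ) : ℝ) ≤ 2 * n := by exact_mod_cast h3
  have h5 : 0 ≤ F a := h0 ▸ hm (Nat.zero_le a)
  calc (a : ℝ) * F n ≤ a * (((n / a + 1 : ℕ) : ℝ) * F a) :=
        mul_le_mul_of_nonneg_left h2 (Nat.cast_nonneg _)
    _ = (a * ((n / a + 1 : ℕ) : ℝ)) * F a := by ring
    _ ≤ _ := mul_le_mul_of_nonneg_right h4 h5

lemma equiv (F : ℕ → ℝ) (h0 : F 0 = 0) (hs : ∀ x y, F (x + y) ≤ F x + F y) (hm : Monotone F)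
    (hp : ∀ x, 0 < x → 0 < F x) (g : ℕ → ℕ) (hg : Tendsto g atTop atTop)
    (hk : ∀ ε > 0, ∃ k : ℕ, 0 < k ∧ ∀ᶠ n in atTop, F (n / k) ≤ ε * F (g n))
    (a : ℕ → ℕ) (ha : ∀ n, a n ≤ n) :
    Tendsto (fun n => F (a n) / F (g n)) atTop (𝓝 0) ↔
      Tendsto (fun n => (a n : ℝ) / (n * F (g n) / F n)) atTop (𝓝 0) := by
  have hn : ∀ x, 0 ≤ F x := fun x => h0 ▸ hm (Nat.zero_le x)
  constructor
  · intro h
    have h2 := h.const_mul 2
    rw [mul_zero] at h2
    refine squeeze_zero' (Eventually.of_forall fun n => by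
      have := hn n; have := hn (g n); positivity) ?_ h2
    filter_upwards [eventually_gt_atTop 0, hg.eventually_gt_atTop 0] with n a1 a2
    have b1 := hp _ a1
    have b2 := hp _ a2
    have b3 : (0 : ℝ) < n := by exact_mod_cast a1
    have := ratio F h0 hs hm (ha n)
    rw [div_div_eq_mul_div, ← mul_div_assoc, div_le_div_iff₀ (by positivity) b2]
    nlinarith
  · intro h
    rw [NormedAddGroup.tendsto_nhds_zero]
    intro ε hε
    obtain ⟨k, hk0, hk⟩ := hk (ε / 2) (by positivity)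
    have hk1 : (0 : ℝ) < k := by exact_mod_cast hk0
    filter_upwards [eventually_gt_atTop 0, hg.eventually_gt_atTop 0, hk,
      h.eventually (gt_mem_nhds (show 0 < ε / k by positivity))] with n a1 a2 a3 a4
    have b1 := hp _ a1
    have b2 := hp _ a2
    have b3 : (0 : ℝ) < n := by exact_mod_cast a1
    rw [Real.norm_eq_abs, abs_of_nonneg (div_nonneg (hn _) b2.le), div_lt_iff₀ b2]
    by_cases c : a n ≤ n / k
    · have := hm c
      nlinarith
    · have c1 : n ≤ a n * k := ((Nat.div_lt_iff_lt_mul hk0).1 (not_le.1 c)).le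
      have c2 : (n : ℝ) ≤ a n * k := by exact_mod_cast c1
      rw [div_div_eq_mul_div, div_lt_div_iff₀ (by positivity) hk1] at a4
      have c3 := hm (ha n)
      have c4 : (n : ℝ) * F n ≤ a n * k * F n := mul_le_mul_of_nonneg_right c2 b1.le
      have c5 : (n : ℝ) * F n < n * (ε * F (g n)) := by nlinarith
      have := lt_of_mul_lt_mul_left c5 b3.le
      linarith

lemma regular (G : ℕ → ℝ) (hG : Tendsto G atTop atTop) :
    ∃ g : ℕ → ℕ, Monotone g ∧ Tendsto g atTop atTop ∧ ∀ a : ℕ → ℕ, Monotone a →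
      (Tendsto (fun n => (a n : ℝ) / G n) atTop (𝓝 0) ↔
        Tendsto (fun n => (a n : ℝ) / g n) atTop (𝓝 0)) := by
  have ex : ∀ n, ∃ m, n ≤ m ∧ ∀ m', n ≤ m' → ⌈G m⌉₊ ≤ ⌈G m'⌉₊ := by
    intro n
    obtain ⟨m, hm, e⟩ := Nat.sInf_mem (s := (fun m => ⌈G m⌉₊) '' Set.Ici n) ⟨_, n, Set.mem_Ici.2 le_rfl, rfl⟩
    exact ⟨m, hm, fun m' h => e.le.trans (Nat.sInf_le ⟨m', h, rfl⟩)⟩
  choose μ h1 h2 using ex
  have hμ : Tendsto μ atTop atTop := tendsto_atTop_mono h1 tendsto_id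
  refine ⟨fun n => ⌈G (μ n)⌉₊, fun a b hab => h2 a _ (hab.trans (h1 b)),
    tendsto_nat_ceil_atTop.comp (hG.comp hμ), fun a ha => ⟨fun h => ?_, fun h => ?_⟩⟩
  · refine squeeze_zero' (Eventually.of_forall fun n => by positivity) ?_ (h.comp hμ)
    filter_upwards [(hG.comp hμ).eventually_gt_atTop 0] with n hn
    exact div_le_div₀ (Nat.cast_nonneg _) (by exact_mod_cast ha (h1 n)) hn (Nat.le_ceil _)
  · have h3 := h.const_mul 2
    rw [mul_zero] at h3
    refine squeeze_zero' ?_ ?_ h3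
    · filter_upwards [hG.eventually_gt_atTop 0] with n hn
      positivity
    filter_upwards [hG.eventually_ge_atTop 1, (hG.comp hμ).eventually_gt_atTop 0] with n hn hn'
    have b1 : (0 : ℝ) < ⌈G (μ n)⌉₊ := lt_of_lt_of_le hn' (Nat.le_ceil _)
    have b2 : (⌈G (μ n)⌉₊ : ℝ) ≤ ⌈G n⌉₊ := by exact_mod_cast h2 n n le_rfl
    have b3 := Nat.ceil_lt_add_one (show 0 ≤ G n by linarith)
    rw [← mul_div_assoc, div_le_div_iff₀ (by linarith) b1]
    nlinarith [Nat.cast_nonneg (α := ℝ) (a n)]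

end Pool.Agent.H.MP_54d8ad_lc
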